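import Pool.Agent.H81.PM.LabV

/-!
# Plan M: the labels exist, with the height

`MLab`: the labels of lemma PLANE and of the height, without charts. `labM_of`: then `LabM`.
-/

set_option autoImplicit false

namespace Pool.PM81

open Finset Real MvPolynomial
open Pool.Agent.H49.Ent Pool.Agent.H32.Dense Pool.STK Pool.KA Pool.KSAT Pool.K2S Pool.PB
  Pool.STAT Pool.GEN Pool.M3F Pool.KM7 Pool.S6C Pool.JPN Pool.PLN
open Pool.PM (VNum VDat LabV MNum MDat LabM)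
open Pool.PM93 (afp eval_afp IsAf isAf_afp AflOf)
open Pool.PM26 (Afl)
open Pool.GRW (TmWn)
open Pool.PLA (bas_large big_ex)
open Pool.GEO (CsQ)

variable {m J : ℕ}

/-- **The labels of a member, with the height**, without charts: the fields are those of `MDat`. -/
structure MLab (N : MNum) (φ : ℝ) (K D : ℕ) (F : Fam m J) (c : ℕ → Fin m) (A : F.Ω → Prop)
    extends Dat N.toNums φ K F c A where
  gN : ℕ → ℕ
  lab3 : NLabW F c 3 ⌊N.w1 * J⌋₊ ⌊N.sN * J⌋₊ gN K L A z z' P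
  sg_eq : sg = 0
  gN_eq : ∀ i < 3, gN i = g' i
  numN : |(gN 3 : ℝ) - N.gN * J| ≤ φ * J
  topN : gN 3 ≤ J
  winN : ∀ i < 4, ⌊N.w1 * J⌋₊ ≤ wid ⌊N.w1 * J⌋₊ gN i + kap
  Pr : ℕ
  Qh : V → MvPolynomial (Option (Fin 4)) ℝ
  rz : V → ℝ
  Pr_W : ⌊N.w1 * J⌋₊ ≤ Pr
  Pr_g : Pr ≤ gN 3
  Pr_ge : (gN 3 : ℝ) ≤ Pr + φ * J
  Pr_wid : ∀ i < 4, wid ⌊N.w1 * J⌋₊ gN i ≤ Pr
  csq : ∀ ω, A ω → CsQ 3 D ⌊N.w1 * J⌋₊ Pr gN (P (z (ptr F J ω))) (Qh (z (ptr F J ω)))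
    (rz (z (ptr F J ω)))
  rz_ge : ∀ ω, A ω → 1 ≤ ((2 ^ (Pr - ⌊N.w1 * J⌋₊) : ℕ) : ℝ) * rz (z (ptr F J ω))
  rz_le : ∀ ω, A ω → ((2 ^ (Pr - ⌊N.w1 * J⌋₊) : ℕ) : ℝ) * rz (z (ptr F J ω)) ≤ Real.exp (φ * J)

namespace MLab

variable {N : MNum} {φ φ' : ℝ} {K D : ℕ} {F : Fam m J} {c : ℕ → Fin m} {A B : F.Ω → Prop}

/-- The labels on a smaller event. -/
def sub (d : MLab N φ K D F c A) (hB : Sub B A) : MLab N φ K D F c B :=
  { toDat := d.toDat.sub hB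
    gN := d.gN
    lab3 := nlabw_sub d.lab3 hB
    sg_eq := d.sg_eq
    gN_eq := d.gN_eq
    numN := d.numN
    topN := d.topN
    winN := d.winN
    Pr := d.Pr
    Qh := d.Qh
    rz := d.rz
    Pr_W := d.Pr_W
    Pr_g := d.Pr_g
    Pr_ge := d.Pr_ge
    Pr_wid := d.Pr_wid
    csq := fun ω hω => d.csq ω (hB ω hω)
    rz_ge := fun ω hω => d.rz_ge ω (hB ω hω)
    rz_le := fun ω hω => d.rz_le ω (hB ω hω) }

/-- The labels with a larger slack. -/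
def mono (d : MLab N φ K D F c A) (h : φ ≤ φ') : MLab N φ' K D F c A :=
  have hJ : φ * J ≤ φ' * J := mul_le_mul_of_nonneg_right h (Nat.cast_nonneg J)
  { toDat := d.toDat.mono h
    gN := d.gN
    lab3 := d.lab3
    sg_eq := d.sg_eq
    gN_eq := d.gN_eq
    numN := d.numN.trans hJ
    topN := d.topN
    winN := d.winN
    Pr := d.Pr
    Qh := d.Qh
    rz := d.rz
    Pr_W := d.Pr_W
    Pr_g := d.Pr_g
    Pr_ge := d.Pr_ge.trans (by linarith)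
    Pr_wid := d.Pr_wid
    csq := d.csq
    rz_ge := d.rz_ge
    rz_le := fun ω hω => (d.rz_le ω hω).trans (Real.exp_le_exp.2 hJ) }

end MLab

/-- The labels with the charts. -/
theorem mdat_of {N : MNum} {φ : ℝ} {K D : ℕ} {F : Fam m J} {c : ℕ → Fin m} {A : F.Ω → Prop}
    (y : MLab N φ K D F c A) (v : VDat N.toVNum φ K F c A) (hv : v.toDat = y.toDat)
    (hpos : ∀ ω, A ω → |ntc F c v.Q v.u ω 3| ≤ 1 / 2 ^ v.gU 3)
    (hnum : |(v.gU 3 : ℝ) - N.β 3 * J| ≤ φ * J) : Nonempty (MDat N φ K D F c A) := by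
  obtain ⟨x, gN, lab3, sg_eq, gN_eq, numN, topN, winN, Pr, Qh, rz, Pr_W, Pr_g, Pr_ge, Pr_wid,
    csq, rz_ge, rz_le⟩ := y
  dsimp only at hv
  subst hv
  exact ⟨{ toVDat := v
           gN := gN
           lab3 := lab3
           sg_eq := sg_eq
           gN_eq := gN_eq
           numN := numN
           topN := topN
           winN := winN
           posN := hpos
           numUN := hnum
           Pr := Pr
           Qh := Qh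
           rz := rz
           Pr_W := Pr_W
           Pr_g := Pr_g
           Pr_ge := Pr_ge
           Pr_wid := Pr_wid
           csq := csq
           rz_ge := rz_ge
           rz_le := rz_le }⟩

/-- **The labels exist**, without charts. -/
def LabN (S : PCl m) (c : ℕ → Fin m) (N : MNum) (K D : ℕ) : Prop :=
  ∀ φ : ℝ, 0 < φ → ∃ κ : ℝ, 0 < κ ∧ Bas S (fun _ F A => ∃ A' : F.Ω → Prop, Sub A' A ∧
    κ * Pe F.p A ≤ Pe F.p A' ∧ Nonempty (MLab N φ K D F c A'))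

/-- **The labels exist**, with the height. -/
theorem labM_of {S : PCl m} {c : ℕ → Fin m} {N : MNum} {K D : ℕ} (hK : 1 ≤ K) {p p₃ : ℝ → ℝ}
    (hp : AflOf S c 2 p) (hp₃ : AflOf S c 3 p₃) {γ : ℝ} (hγ : 0 < γ) (hw0 : 0 < N.w0)
    (hw : N.w0 + γ ≤ 1) (hg : ∀ i < 2, N.g0 i + γ ≤ 1) (hsl : 0 ≤ N.sl) (hs : N.s0 ≤ N.sl)
    (hβ : ∀ i < 2, N.β i = N.g0 i) (hβ2 : N.β 2 = p N.w0) (hβ3 : N.β 3 = p₃ N.w0)
    (hb : N.w0 ≤ N.β 2 + N.sl) (hb' : ∀ i < 2, N.g0 i ≤ N.β 2 + N.sl) (htm : TmWn S N.w0)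
    (hex : ∀ ρ : ℝ, 0 < ρ → ExvY S N.w0 (fun J F ω (i : Fin 2) => F.X J ω (c i))
      ((∑ l ∈ range 2, (1 - N.g0 l)) - ρ))
    (hD : LabN S c N K D) : LabM S c N K D := by
  intro φ hφ
  have hw1 : N.w0 ≤ 1 := by linarith
  have hpw : N.w0 ≤ p₃ N.w0 := hp₃.low' _ hw0.le hw1
  obtain ⟨φ', hφ', pφ, hch⟩ := chart_cls (N := N.toVNum) hK hp hγ hw0 hw hg hsl hs hβ hβ2 hb hb'
    htm hex hφ
  obtain ⟨κ, hκ, hD₁⟩ := hD φ' hφ'
  obtain ⟨e, he, he1, he2⟩ : ∃ e : ℝ, 0 < e ∧ 2 * e ≤ φ ∧ 2 * e ≤ N.w0 :=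
    ⟨min φ N.w0 / 2, by positivity, by linarith [min_le_left φ N.w0],
      by linarith [min_le_right φ N.w0]⟩
  obtain ⟨J₆, H₆⟩ := big_ex 1 he
  refine ⟨κ / 2, by positivity, ((hD₁.and (hch κ hκ)).and
    (hp₃.att N.w0 e hw0 hw1 he (by linarith))).mono J₆ ?_⟩
  rintro J hJ F A ⟨⟨⟨A', hA', hPA', ⟨y⟩⟩, H⟩, V₃, z₃, z₃', Q, q1, q2, q3⟩
  have K₆ := H₆ J hJ
  have hJ0 : (0 : ℝ) ≤ J := Nat.cast_nonneg J
  obtain ⟨B, hB, hPB, v, hv, hv4, hv3⟩ := H A' hA' hPA' y.toDat V₃ z₃ z₃' Q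
    ⌊(p₃ N.w0 - e) * J⌋₊ q1 (fun ω hω => q2 ω (hA' ω hω))
  refine ⟨B, fun ω hω => hA' ω (hB ω hω), by linarith, ?_⟩
  refine mdat_of ((y.sub hB).mono pφ) v (hv pφ) (fun ω hω => ?_) ?_
  · unfold ntc
    rw [hv4, hv3]
    exact q3 ω (hA' ω (hB ω hω))
  · rw [hv3, hβ3, abs_le]
    have h1 := Nat.floor_le (mul_nonneg (show 0 ≤ p₃ N.w0 - e by linarith) hJ0)
    have h2 := (Nat.sub_one_lt_floor ((p₃ N.w0 - e) * (J : ℝ))).le
    have h3 : 2 * e * J ≤ φ * J := mul_le_mul_of_nonneg_right he1 hJ0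
    constructor <;> nlinarith

end Pool.PM81
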