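import Pool.Agent.H93.PM.Rem
import Pool.Agent.H45.EXA.Nbc
import Pool.Agent.H5.M3F.KerC

/-!
# Closed polynomials which are small at the points, in a class

`rem_cls`: in a class in which the times of the window `w` are full and the coordinates `c 0, …,
c (r - 1)` are exact given the closed labels of `w`, a polynomial which is a function of a closed
label and is small at the points of an event is small on the boxes of the label of a half of the
event, with a loss `exp (η J)`.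
-/

set_option autoImplicit false

namespace Pool.PM81

open Finset Real MvPolynomial
open Pool.Agent.H49.Ent Pool.Agent.H32.Dense Pool.STK Pool.KA Pool.KSAT Pool.K2S Pool.PB Pool.GEN
open Pool.STAT Pool.STAT.CLO Pool.M3F Pool.S6C
open Pool.GRW (TmWn)

variable {m J : ℕ}

/-- **Closed polynomials which are small at the points are small on the boxes**, in a class. -/
theorem rem_cls {S : PCl m} {c : ℕ → Fin m} (r K : ℕ) {w γ : ℝ} {β : ℕ → ℝ} (hw : 0 ≤ w)
    (hγ : 0 < γ) (hwγ : w + γ ≤ 1) (hβ : ∀ l < r, β l + γ ≤ 1) (htm : TmWn S w)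
    (hex : ∀ ρ : ℝ, 0 < ρ → ExvY S w (fun J F ω (i : Fin r) => F.X J ω (c i))
      ((∑ l ∈ range r, (1 - β l)) - ρ)) {η : ℝ} (hη : 0 < η) : ∃ δ : ℝ, 0 < δ ∧
    Bas S (fun J F A => ∀ (g : ℕ → ℕ) (V : Type) (z : PtT F → V) (z' : LnT F → V)
      (P : V → ℕ → PN) (D : V → PN) (τ : ℝ), (∀ l < r, |(g l : ℝ) - β l * J| ≤ δ * J) →
      (∀ v i, (P v i).totalDegree ≤ K) → (∀ v, TriN (P v)) →
      (∀ ω, A ω → z (ptr F J ω) = z' (slam F ⌊w * J⌋₊ ω)) →
      (∀ ω, A ω → P (z (ptr F J ω)) 0 =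
        MvPolynomial.C ((F.T1 ⌊w * J⌋₊ ω : ℝ) / 2 ^ ⌊w * J⌋₊)) →
      (∀ ω, A ω → ∀ i < r, |px c (ptr F J ω) (i + 1) -
        eval (px c (ptr F J ω)) (P (z (ptr F J ω)) (i + 1))| ≤ 1 / 2 ^ g i) →
      (∀ v, (D v).totalDegree ≤ K) → (∀ v, (D v).vars ⊆ range (r + 1)) → 0 < τ →
      (∀ ω, A ω → |eval (px c (ptr F J ω)) (D (z (ptr F J ω)))| ≤ τ) →
      ∃ A' : F.Ω → Prop, Sub A' A ∧ Pe F.p A ≤ 2 * Pe F.p A' ∧
        ∀ ω, A' ω → ∀ b : ℕ → ℝ, Bxr 2 (wid ⌊w * J⌋₊ g) (P (z (ptr F J ω))) (r + 1) b →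
          |eval b (D (z (ptr F J ω)))| ≤ Real.exp (η * J) * τ) := by
  classical
  obtain ⟨C₀, hC₀, hrem⟩ := Pool.PM93.rem_px r K 1 2 (by norm_num)
  have hr0 : (0 : ℝ) ≤ r := Nat.cast_nonneg r
  obtain ⟨h, hh⟩ : ∃ h, h = min η (γ / 4) := ⟨_, rfl⟩
  have hh0 : 0 < h := by
    rw [hh]
    exact lt_min hη (by linarith)
  have hh1 : h ≤ η := by
    rw [hh]
    exact min_le_left _ _
  have hh2 : h ≤ γ / 4 := by
    rw [hh]
    exact min_le_right _ _
  obtain ⟨δ, hδ⟩ : ∃ δ : ℝ, δ = h / (16 * C₀ * (r + 2)) := ⟨_, rfl⟩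
  have hδ0 : 0 < δ := by
    rw [hδ]
    positivity
  have hδκ : 16 * (C₀ * (r + 2) * δ) = h := by
    rw [hδ]
    field_simp
  have hCr : 1 ≤ C₀ * (r + 2) := by nlinarith
  have hδh : δ ≤ h / 16 := by nlinarith
  obtain ⟨J₁, hJ₁⟩ := exists_nat_ge (16 * (C₀ + 2) / h)
  refine ⟨δ, hδ0, ((htm δ hδ0).and (hex δ hδ0)).mono J₁ ?_⟩
  rintro J hJ F A ⟨⟨hB, hT⟩, hV⟩ g V z z' P D τ hg hdeg htri hcls hzero hpos hDd hDv hτ hsm
  have j1 : (16 * (C₀ + 2) / h : ℝ) ≤ J := hJ₁.trans (by exact_mod_cast hJ)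
  rw [div_le_iff₀ hh0] at j1
  have hJ0 : (0 : ℝ) ≤ J := Nat.cast_nonneg J
  obtain ⟨W₀, hW₀⟩ : ∃ W₀, W₀ = ⌊w * (J : ℝ)⌋₊ := ⟨_, rfl⟩
  rw [← hW₀] at hT hV hcls hzero ⊢
  have hW₀le : (W₀ : ℝ) ≤ w * J := by
    rw [hW₀]
    exact Nat.floor_le (by positivity)
  have hW₀J : W₀ ≤ J := by
    rw [hW₀]
    exact Nat.floor_le_of_le (by nlinarith)
  have hq := isLaw_cond F.isLaw hB
  have hsupp : ∀ ω, 0 < Pool.Agent.H49.Ent.cond F.p A True ω → A ω := fun ω hω => cond_supp hω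
  obtain ⟨l2, hl2⟩ : ∃ l2, l2 = Real.log 2 := ⟨_, rfl⟩
  have l2a : 1 / 2 ≤ l2 := by
    rw [hl2]
    have := Real.log_two_gt_d9
    linarith
  have l2b : l2 ≤ 1 := by
    rw [hl2]
    have := Real.log_two_lt_d9
    linarith
  -- the time
  have hTime : ((J - W₀ : ℕ) : ℝ) * Real.log 2 - δ * J ≤
      CH (Pool.Agent.H49.Ent.cond F.p A True) F.T (fun ω => z (ptr F J ω)) := by
    have h1 := hT (J - W₀) (by omega)
    have h2 : W₀ + (J - W₀) = J := by omega
    rw [h2] at h1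
    have h3 : F.T1 J = F.T := by
      funext ω
      show F.T ω / 2 ^ (J - J) = F.T ω
      rw [Nat.sub_self, pow_zero, Nat.div_one]
    rw [h3] at h1
    refine h1.trans (CH_mono_cond hq.nonneg fun ω ω' hω hω' h => ?_)
    rw [hcls ω (hsupp ω hω), hcls ω' (hsupp ω' hω'), h]
  -- the base
  have hBase : (∑ i ∈ range r, ((J - g i : ℕ) : ℝ)) * Real.log 2 - (r + 1) * (δ * J) ≤
      CH (Pool.Agent.H49.Ent.cond F.p A True) (fun ω (i : Fin r) => F.X J ω (c i))
        (fun ω => (z (ptr F J ω), F.W ω)) := by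
    have h1 := hV V z z' hcls
    have h2 : CH (Pool.Agent.H49.Ent.cond F.p A True) (fun ω (i : Fin r) => F.X J ω (c i))
        (fun ω => (z' (slam F W₀ ω), F.W ω)) ≤
        CH (Pool.Agent.H49.Ent.cond F.p A True) (fun ω (i : Fin r) => F.X J ω (c i))
        (fun ω => (z (ptr F J ω), F.W ω)) := by
      refine CH_mono_cond hq.nonneg fun ω ω' hω hω' h => ?_
      rw [hcls ω (hsupp ω hω), hcls ω' (hsupp ω' hω')]
      exact h
    have h3 : (∑ i ∈ range r, ((J - g i : ℕ) : ℝ)) ≤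
        (∑ l ∈ range r, (1 - β l)) * J + r * (δ * J) := by
      rw [Finset.sum_mul]
      have h4 : (r : ℝ) * (δ * J) = ∑ l ∈ range r, δ * (J : ℝ) := by
        rw [sum_const, card_range, nsmul_eq_mul]
      rw [h4, ← sum_add_distrib]
      refine sum_le_sum fun l hl => ?_
      have h5 := abs_le.1 (hg l (mem_range.1 hl))
      have h6 : ((J - g l : ℕ) : ℝ) ≤ max 0 ((J : ℝ) - g l) := by
        rcases le_total (g l) J with h7 | h7
        · rw [Nat.cast_sub h7]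
          exact le_max_right _ _
        · rw [Nat.sub_eq_zero_of_le h7]
          push_cast
          exact le_max_left _ _
      refine h6.trans (max_le ?_ (by linarith [h5.1]))
      have h8 := hβ l (mem_range.1 hl)
      have h9 : 0 ≤ (1 - β l) * J := mul_nonneg (by linarith) hJ0
      have h10 : 0 ≤ δ * J := by positivity
      linarith
    have h4 : ((∑ l ∈ range r, (1 - β l)) - δ) * Real.log 2 * J ≤ _ := h1.trans h2
    refine le_trans ?_ h4
    rw [← hl2] at *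
    have h5 : (∑ i ∈ range r, ((J - g i : ℕ) : ℝ)) * l2 ≤
        ((∑ l ∈ range r, (1 - β l)) * J + r * (δ * J)) * l2 :=
      mul_le_mul_of_nonneg_right h3 (by linarith)
    have h6 : (r + 1) * (δ * J) * l2 ≤ (r + 1) * (δ * J) := by
      have : 0 ≤ (r + 1) * (δ * (J : ℝ)) := by positivity
      nlinarith
    nlinarith
  -- the numbers
  obtain ⟨lam, hlam⟩ : ∃ lam, lam = ⌊γ / 2 * (J : ℝ)⌋₊ := ⟨_, rfl⟩
  have hlam1 : (lam : ℝ) ≤ γ / 2 * J := by
    rw [hlam]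
    exact Nat.floor_le (by positivity)
  have hlam2 : γ / 2 * J - 1 ≤ lam := by
    rw [hlam]
    exact (Nat.sub_one_lt_floor _).le
  have hδγ : δ ≤ γ / 4 := by linarith
  have hlW : W₀ + lam ≤ J := by
    have : ((W₀ + lam : ℕ) : ℝ) ≤ J := by
      push_cast
      nlinarith
    exact_mod_cast this
  have hlg : ∀ i < r, g i + lam ≤ J := by
    intro i hi
    have h5 := abs_le.1 (hg i hi)
    have h6 := hβ i hi
    have : ((g i + lam : ℕ) : ℝ) ≤ J := by
      push_cast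
      nlinarith [h5.2]
    exact_mod_cast this
  have hee : C₀ * (δ * J + (r + 1) * (δ * J) + 1) = h / 16 * J + C₀ := by
    rw [← hδκ]
    ring
  have hpx : h / 16 * J + C₀ ≤ h * J := by nlinarith
  obtain ⟨A', b1, b2, b3⟩ := hrem m J F c W₀ lam g A V z P (fun _ => D) (fun _ _ => τ)
    (δ * J) ((r + 1) * (δ * J)) (by positivity) (by positivity) hW₀J hdeg htri hzero hpos hB hlW
    hlg hTime hBase (by
      rw [hee, ← hl2]
      have h2 : h * J ≤ γ / 4 * J := mul_le_mul_of_nonneg_right hh2 hJ0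
      have h3 : (γ / 2 * J - 1) * l2 ≤ lam * l2 := mul_le_mul_of_nonneg_right hlam2 (by linarith)
      have h4 : 0 ≤ γ * J := by positivity
      nlinarith) (fun _ v => hDd v) (fun _ v => hDv v) (fun _ _ => hτ)
      (fun ω hω _ _ => hsm ω hω)
  refine ⟨A', b1, b2, fun ω hω b hb => (b3 ω hω 0 one_pos b hb).trans ?_⟩
  rw [hee]
  refine mul_le_mul_of_nonneg_right (Real.exp_le_exp.2 ?_) hτ.le
  have h2 : h * J ≤ η * J := mul_le_mul_of_nonneg_right hh1 hJ0
  linarith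

end Pool.PM81
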