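import Pool.Agent.H81.PM.Chr
import Pool.Agent.H81.PM.Rmc
import Pool.Agent.H93.PM.Afl
import Pool.Agent.H58.AFF.HesT

/-!
# Plan M: the labels exist, without the height

`LabD`: the labels of lemma PLANE exist on a large event. `labV_of`: then `LabV`: the chart of
`VDat` is the label of `w0` for the first two coordinates, and the affine label of `AflOf.att` for
the third coordinate.
-/

set_option autoImplicit false

namespace Pool.PM81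

open Finset Real MvPolynomial
open Pool.Agent.H49.Ent Pool.Agent.H32.Dense Pool.STK Pool.KA Pool.KSAT Pool.K2S Pool.PB
  Pool.STAT Pool.GEN Pool.M3F Pool.KM7 Pool.S6C Pool.JPN Pool.PLN
open Pool.PM (VNum VDat LabV)
open Pool.PM93 (afp eval_afp IsAf isAf_afp AflOf)
open Pool.PM26 (Afl)
open Pool.GRW (TmWn)
open Pool.PLA (bas_large big_ex)

variable {m J : ℕ}

/-- **The labels of lemma PLANE exist.** -/
def LabD (S : PCl m) (c : ℕ → Fin m) (N : Nums) (K : ℕ) : Prop :=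
  ∀ φ : ℝ, 0 < φ → ∃ κ : ℝ, 0 < κ ∧ Bas S (fun _ F A => ∃ A' : F.Ω → Prop, Sub A' A ∧
    κ * Pe F.p A ≤ Pe F.p A' ∧ Nonempty (Dat N φ K F c A'))

section mem

variable {N : Nums} {φ φ' : ℝ} {K : ℕ} {F : Fam m J} {c : ℕ → Fin m} {A B : F.Ω → Prop}
  (d : Dat N φ' K F c A) {V₂ V₃ : Type} (Q : V₂ → PN) (Q₄ : V₃ → PN)

/-- The chart. -/
noncomputable def chQ (v : d.V0 × V₂ × V₃) (i : ℕ) : PN :=
  if i < 3 then d.P0 v.1 i else if i = 3 then Q v.2.1 else if i = 4 then Q₄ v.2.2 else 0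

theorem chQ_lt (v : d.V0 × V₂ × V₃) {i : ℕ} (hi : i < 3) : chQ d Q Q₄ v i = d.P0 v.1 i :=
  if_pos hi

theorem chQ_three (v : d.V0 × V₂ × V₃) : chQ d Q Q₄ v 3 = Q v.2.1 := by
  unfold chQ
  rw [if_neg (by norm_num), if_pos rfl]

theorem chQ_four (v : d.V0 × V₂ × V₃) : chQ d Q Q₄ v 4 = Q₄ v.2.2 := by
  unfold chQ
  rw [if_neg (by norm_num), if_neg (by norm_num), if_pos rfl]

theorem chQ_tri (hQ : ∀ v, IsAf 2 (Q v)) (hQ₄ : ∀ v, IsAf 3 (Q₄ v)) (v : d.V0 × V₂ × V₃) :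
    TriN (chQ d Q Q₄ v) := by
  intro i
  rcases Nat.lt_or_ge i 3 with h | h
  · rw [chQ_lt d Q Q₄ v h]
    exact d.lab0.tri v.1 i
  · by_cases h3 : i = 3
    · subst h3
      rw [chQ_three]
      exact (hQ v.2.1).2
    · by_cases h4 : i = 4
      · subst h4
        rw [chQ_four]
        exact (hQ₄ v.2.2).2
      · unfold chQ
        rw [if_neg (by omega), if_neg h3, if_neg h4, vars_0]
        exact empty_subset _

theorem chQ_aff (hQ : ∀ v, IsAf 2 (Q v)) (hQ₄ : ∀ v, IsAf 3 (Q₄ v)) (v : d.V0 × V₂ × V₃)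
    (i : ℕ) : (chQ d Q Q₄ v i).totalDegree ≤ 1 := by
  rcases Nat.lt_or_ge i 3 with h | h
  · rw [chQ_lt d Q Q₄ v h]
    exact d.dg0 v.1 i h
  · by_cases h3 : i = 3
    · subst h3
      rw [chQ_three]
      exact (hQ v.2.1).1
    · by_cases h4 : i = 4
      · subst h4
        rw [chQ_four]
        exact (hQ₄ v.2.2).1
      · unfold chQ
        rw [if_neg (by omega), if_neg h3, if_neg h4, totalDegree_zero]
        exact Nat.zero_le _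

/-- The slopes of the chart of the third coordinate. -/
theorem chQ_slp (hQ : ∀ v, IsAf 2 (Q v)) (hN : d.low.Nms) {ω : F.Ω} (hω : A ω)
    {v : d.V0 × V₂ × V₃} (hv : v.1 = d.zz (ptr F J ω)) {X Y M : ℝ}
    (hq : ∀ b : ℕ → ℝ, CLO.Bxr 2 (wid ⌊N.w0 * J⌋₊ d.g0') (d.P0 v.1) 3 b →
      |2 ^ d.sg0 * eval b (d.P0 v.1 3) - eval b (Q v.2.1)| ≤ X)
    (hY : ∀ i < 3, 2 * X * 2 ^ wid ⌊N.w0 * J⌋₊ d.g0' i ≤ Y)
    (hM : (1 + 2 * d.L) ^ 2 * (Y + 3 * 2 ^ d.sg0 * d.L) ≤ M) :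
    ∀ l < 3, |eval 0 (pderiv l (chQ d Q Q₄ v 3))| ≤ M := by
  intro l hl
  obtain ⟨α, hα⟩ := IsAf.eq (hQ v.2.1)
  rw [chQ_three, hα, pd_afp 2 _ 0 (by omega)]
  rw [hα, hv] at hq
  refine le_trans ?_ hM
  exact slp_box (d.lab0.tri _) (fun i hi => d.dg0 _ i hi) d.L0 (by positivity)
    (d.low.pos_bx hN hω) (fun i hi l _ => d.low.aff_le hN hω hi l _)
    (fun b hb l hl => d.lab0.grad ω hω b hb 3 le_rfl l hl) hq hY l hl

end mem

/-- Numbers of the slopes. -/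
theorem slp_num {e φ φ' sl : ℝ} {J : ℕ} {L S k X Y E : ℝ} (he : 0 ≤ e) (hsl : 0 ≤ sl)
    (h1 : φ' ≤ e) (h2 : 16 * e ≤ φ) (h5 : 49 ≤ Real.exp (φ / 2 * J)) (hL0 : 0 ≤ L)
    (hL : 1 + L ≤ Real.exp (φ' * J)) (hS0 : 0 ≤ S) (hS : S ≤ Real.exp ((sl + φ') * J))
    (hk0 : 0 ≤ k) (hk : k ≤ Real.exp (φ' * J)) (hX0 : 0 ≤ X) (hX : X ≤ Real.exp (e * J))
    (hE0 : 0 ≤ E) (hE : E ≤ Real.exp ((sl + 2 * e) * J + 3))
    (hY : Y = 2 * X * (2 * (S * k) + E)) :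
    (1 + 2 * L) ^ 2 * (Y + 3 * S * L) ≤ Real.exp ((sl + φ) * J) := by
  obtain ⟨v, hv⟩ : ∃ v, v = Real.exp (e * J) := ⟨_, rfl⟩
  obtain ⟨s, hs⟩ : ∃ s, s = Real.exp (sl * J) := ⟨_, rfl⟩
  have hJ : (0 : ℝ) ≤ J := Nat.cast_nonneg J
  have hv1 : 1 ≤ v := by
    rw [hv]
    exact Real.one_le_exp (mul_nonneg he hJ)
  have hs1 : 1 ≤ s := by
    rw [hs]
    exact Real.one_le_exp (mul_nonneg hsl hJ)
  have huv : Real.exp (φ' * J) ≤ v := by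
    rw [hv]
    exact Real.exp_le_exp.2 (mul_le_mul_of_nonneg_right h1 hJ)
  have hLv : 1 + L ≤ v := hL.trans huv
  have hkv : k ≤ v := hk.trans huv
  have hSv : S ≤ s * v := by
    refine hS.trans ?_
    rw [show (sl + φ') * (J : ℝ) = sl * J + φ' * J by ring, Real.exp_add, ← hs]
    exact mul_le_mul_of_nonneg_left huv (by linarith)
  have hEv : E ≤ 21 * (s * v ^ 2) := by
    refine hE.trans ?_
    rw [show (sl + 2 * e) * (J : ℝ) + 3 = 3 + (sl * J + ((2 : ℕ) : ℝ) * (e * J)) by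
      push_cast; ring, Real.exp_add, Real.exp_add, Real.exp_nat_mul, ← hs, ← hv]
    have h3 : Real.exp 3 ≤ 21 := by
      have h4 : Real.exp 3 = Real.exp 1 ^ 3 := by
        rw [← Real.exp_nat_mul]
        norm_num
      have h6 : Real.exp 1 ≤ 2.72 := by
        have := Real.exp_one_lt_d9
        linarith
      rw [h4]
      calc Real.exp 1 ^ 3 ≤ 2.72 ^ 3 := pow_le_pow_left₀ (Real.exp_pos _).le h6 3
        _ ≤ 21 := by norm_num
    exact mul_le_mul_of_nonneg_right h3 (by positivity)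
  rw [← hv] at hX
  have a1 : 1 + 2 * L ≤ v ^ 2 := by nlinarith
  have a2 : (1 + 2 * L) ^ 2 ≤ v ^ 4 := by
    calc (1 + 2 * L) ^ 2 ≤ (v ^ 2) ^ 2 := pow_le_pow_left₀ (by linarith) a1 2
      _ = v ^ 4 := by ring
  have a3 : Y ≤ 46 * (s * v ^ 3) := by
    rw [hY]
    have h6 : S * k ≤ s * v * v := mul_le_mul hSv hkv hk0 (by positivity)
    have h7 : 2 * (S * k) + E ≤ 23 * (s * v ^ 2) := by nlinarith
    calc 2 * X * (2 * (S * k) + E) ≤ 2 * v * (23 * (s * v ^ 2)) :=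
          mul_le_mul (by linarith) h7 (by positivity) (by linarith)
      _ = _ := by ring
  have a4 : 3 * S * L ≤ 3 * (s * v ^ 3) := by
    have h6 : S * L ≤ s * v * v := mul_le_mul hSv (by linarith) hL0 (by positivity)
    have h7 : s * v * v ≤ s * v * v * v := le_mul_of_one_le_right (by positivity) hv1
    calc 3 * S * L = 3 * (S * L) := by ring
      _ ≤ 3 * (s * v * v * v) := by linarith
      _ = _ := by ring
  have a6 : 0 ≤ Y + 3 * S * L := by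
    rw [hY]
    positivity
  calc (1 + 2 * L) ^ 2 * (Y + 3 * S * L) ≤ v ^ 4 * (49 * (s * v ^ 3)) :=
        mul_le_mul a2 (by linarith) a6 (by positivity)
    _ = 49 * (s * v ^ 7) := by ring
    _ ≤ Real.exp (φ / 2 * J) * (s * v ^ 7) := mul_le_mul_of_nonneg_right h5 (by positivity)
    _ = Real.exp (φ / 2 * J + (sl * J + ((7 : ℕ) : ℝ) * (e * J))) := by
        rw [Real.exp_add, Real.exp_add, hs, hv, Real.exp_nat_mul]
    _ ≤ Real.exp ((sl + φ) * J) := by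
        refine Real.exp_le_exp.2 ?_
        have b2 := mul_le_mul_of_nonneg_right h2 hJ
        push_cast
        nlinarith [mul_nonneg he hJ]

theorem two_le_exp (n : ℕ) {x : ℝ} (h : (n : ℝ) ≤ x) : (2 : ℝ) ^ n ≤ Real.exp x := by
  have h2 : Real.log 2 ≤ 1 := by
    have := Real.log_two_lt_d9
    linarith
  rw [show (2 : ℝ) ^ n = Real.exp (n * Real.log 2) by
    rw [Real.exp_nat_mul, Real.exp_log two_pos]]
  refine Real.exp_le_exp.2 ?_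
  have h3 : (n : ℝ) * Real.log 2 ≤ n * 1 := mul_le_mul_of_nonneg_left h2 (Nat.cast_nonneg n)
  linarith

/-- **The chart**, in a class. `V₃`, `z₃`, `Q₄`, `P₄`: the affine label of another coordinate. -/
theorem chart_cls {S : PCl m} {c : ℕ → Fin m} {N : VNum} {K : ℕ} (hK : 1 ≤ K) {p : ℝ → ℝ} (hp : AflOf S c 2 p) {γ : ℝ}
    (hγ : 0 < γ) (hw0 : 0 < N.w0) (hw : N.w0 + γ ≤ 1) (hg : ∀ i < 2, N.g0 i + γ ≤ 1)
    (hsl : 0 ≤ N.sl) (hs : N.s0 ≤ N.sl) (hβ : ∀ i < 2, N.β i = N.g0 i) (hβ2 : N.β 2 = p N.w0)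
    (hb : N.w0 ≤ N.β 2 + N.sl) (hb' : ∀ i < 2, N.g0 i ≤ N.β 2 + N.sl) (htm : TmWn S N.w0)
    (hex : ∀ ρ : ℝ, 0 < ρ → ExvY S N.w0 (fun J F ω (i : Fin 2) => F.X J ω (c i))
      ((∑ l ∈ range 2, (1 - N.g0 l)) - ρ)) {φ : ℝ} (hφ : 0 < φ) :
    ∃ φ' : ℝ, 0 < φ' ∧ φ' ≤ φ ∧ ∀ κ : ℝ, 0 < κ → Bas S (fun J F A => ∀ A' : F.Ω → Prop,
      Sub A' A → κ * Pe F.p A ≤ Pe F.p A' → ∀ (d : Dat N.toNums φ' K F c A') (V₃ : Type)
      (z₃ : PtT F → V₃) (z₃' : LnT F → V₃) (Q₄ : V₃ → PN) (P₄ : ℕ), (∀ v, IsAf 3 (Q₄ v)) →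
      (∀ ω, A' ω → z₃ (ptr F J ω) = z₃' (slam F ⌊N.w0 * J⌋₊ ω)) →
      ∃ (B : F.Ω → Prop) (hB : Sub B A'), Pe F.p A' ≤ 2 * Pe F.p B ∧
        ∃ v : VDat N φ K F c B, (∀ h : φ' ≤ φ, v.toDat = (d.sub hB).mono h) ∧
          (∀ ω, v.Q (v.u (ptr F J ω)) 4 = Q₄ (z₃ (ptr F J ω))) ∧ v.gU 3 = P₄) := by
  classical
  have hw1 : N.w0 ≤ 1 := by linarith
  have hpw : N.w0 ≤ p N.w0 := hp.low' _ hw0.le hw1
  obtain ⟨e, he, he1, he2⟩ : ∃ e : ℝ, 0 < e ∧ 16 * e ≤ φ ∧ 2 * e ≤ N.w0 :=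
    ⟨min φ N.w0 / 16, by positivity, by linarith [min_le_left φ N.w0],
      by linarith [min_le_right φ N.w0]⟩
  obtain ⟨δ, hδ, hrem⟩ := rem_cls 2 K hw0.le hγ hw hg htm hex he
  obtain ⟨φ₃, hφ₃, J₃, H₃⟩ := nms_cls (m := m) (N := N.toNums.low) hw0.le le_rfl
    (by show N.w0 < 1; linarith) (by have := hg 0 (by norm_num); show N.g0 0 < 1; linarith)
    (by have := hg 1 (by norm_num); show N.g0 1 < 1; linarith)
  obtain ⟨φ', hφ'e⟩ : ∃ φ' : ℝ, φ' = min (min δ φ₃) e := ⟨_, rfl⟩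
  have hφ' : 0 < φ' := by
    rw [hφ'e]
    exact lt_min (lt_min hδ hφ₃) he
  have p₁ : φ' ≤ δ := hφ'e ▸ (min_le_left _ _).trans (min_le_left _ _)
  have p₃ : φ' ≤ φ₃ := hφ'e ▸ (min_le_left _ _).trans (min_le_right _ _)
  have pe : φ' ≤ e := hφ'e ▸ min_le_right _ _
  have pφ : φ' ≤ φ := by linarith
  refine ⟨φ', hφ', pφ, fun κ hκ => ?_⟩
  obtain ⟨τ, hτ, J₁, H₁⟩ := (bas_large hrem hκ).and (hp.att N.w0 e hw0 hw1 he (by linarith))
  obtain ⟨J₅, H₅⟩ := big_ex 48 (show 0 < φ / 2 by linarith)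
  obtain ⟨J₆, H₆⟩ := big_ex 1 he
  refine ⟨τ, hτ, J₁ + J₃ + J₅ + J₆ + 1, ?_⟩
  intro J hJ F A hS A' hA' hPA' d V₃ z₃ z₃' Q₄ P₄ hQ₄ hz₃
  obtain ⟨H₂, V₂, z₂, z₂', Q, q1, q2, q3⟩ := H₁ J (by omega) F A hS
  have K₅ := H₅ J (by omega)
  have K₆ := H₆ J (by omega)
  have hJ0 : (0 : ℝ) ≤ J := Nat.cast_nonneg J
  have hN : d.low.Nms := H₃ φ' hφ' p₃ J (by omega) d.low
  obtain ⟨Pq, hPq⟩ : ∃ Pq, Pq = ⌊(p N.w0 - e) * (J : ℝ)⌋₊ := ⟨_, rfl⟩
  rw [← hPq] at q3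
  have hPq1 : (Pq : ℝ) ≤ (p N.w0 - e) * J := by
    rw [hPq]
    exact Nat.floor_le (mul_nonneg (by linarith) hJ0)
  have hPq2 : (p N.w0 - e) * J - 1 ≤ Pq := by
    rw [hPq]
    exact (Nat.sub_one_lt_floor _).le
  have hφJ : φ' * J ≤ e * J := mul_le_mul_of_nonneg_right pe hJ0
  have hφJ0 : 0 ≤ φ' * J := mul_nonneg hφ'.le hJ0
  have heφ : 16 * e * J ≤ φ * J := mul_le_mul_of_nonneg_right he1 hJ0
  have psg : (0 : ℝ) < 2 ^ d.sg0 := by positivity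
  have pg : (0 : ℝ) < 2 ^ d.g0' 2 := by positivity
  have pPq : (0 : ℝ) < 2 ^ Pq := by positivity
  have hJg : (1 : ℝ) / 2 ^ J ≤ 1 / 2 ^ d.g0' 2 :=
    one_div_le_one_div_of_le pg (pow_le_pow_right₀ (by norm_num) d.top0)
  -- the difference of the two labels of the third coordinate
  obtain ⟨T, hT⟩ : ∃ T : ℝ, T = 1 / 2 ^ d.g0' 2 + 1 / 2 ^ J + 1 / 2 ^ (d.sg0 + Pq) := ⟨_, rfl⟩
  have hT0 : 0 < T := by
    rw [hT]
    positivity
  have hIs : ∀ v, IsAf 2 (Q v) := q1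
  obtain ⟨B, hB1, hB2, hB3⟩ := H₂ A' hA' hPA' d.g0' (d.V0 × V₂) (fun ξ => (d.zz ξ, z₂ ξ))
    (fun ξ => (d.zz' ξ, z₂' ξ)) (fun v => d.P0 v.1)
    (fun v => d.P0 v.1 3 - C (1 / 2 ^ d.sg0 : ℝ) * Q v.2) T
    (fun l hl => (d.num0 l (by omega)).trans (mul_le_mul_of_nonneg_right p₁ hJ0))
    (fun v i => d.lab0.deg v.1 i) (fun v => d.lab0.tri v.1)
    (fun ω hω => by
      show (d.zz (ptr F J ω), z₂ (ptr F J ω)) = _
      rw [d.lab0.cls ω hω, q2 ω (hA' ω hω)])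
    (fun ω hω => d.lab0.zero ω hω) (fun ω hω i hi => d.lab0.pos ω hω i hi)
    (fun v => (totalDegree_sub _ _).trans (max_le (d.lab0.deg _ _)
      (((hIs v.2).smul _).1.trans hK)))
    (fun v => (vars_sub_subset _).trans (union_subset (d.lab0.tri _ _)
      ((hIs v.2).smul _).2)) hT0
    (fun ω hω => by
      rw [map_sub, map_mul, eval_C, hT]
      have h1 := d.lab0.posN ω hω
      have h2 := q3 ω (hA' ω hω)
      obtain ⟨x, hx⟩ : ∃ x, x = px c (ptr F J ω) (2 + 1) := ⟨_, rfl⟩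
      obtain ⟨y, hy⟩ : ∃ y, y = eval (px c (ptr F J ω)) (d.P0 (d.zz (ptr F J ω)) (2 + 1)) :=
        ⟨_, rfl⟩
      obtain ⟨q, hq⟩ : ∃ q, q = eval (px c (ptr F J ω)) (Q (z₂ (ptr F J ω))) := ⟨_, rfl⟩
      rw [← hx, ← hy] at h1
      rw [← hx, ← hq] at h2
      rw [← hy, ← hq]
      have h3 : |(x - q) / 2 ^ d.sg0| ≤ 1 / 2 ^ (d.sg0 + Pq) := by
        rw [abs_div, abs_of_pos psg, div_le_iff₀ psg]
        refine h2.trans (le_of_eq ?_)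
        rw [pow_add]
        field_simp
      have e1 : y - 1 / 2 ^ d.sg0 * q = -(x / 2 ^ d.sg0 - y) + (x - q) / 2 ^ d.sg0 := by ring
      rw [e1]
      refine (abs_add_le _ _).trans ?_
      rw [abs_neg]
      exact add_le_add h1 h3)
  obtain ⟨X, hX⟩ : ∃ X : ℝ, X = Real.exp (e * J) *
      (2 * (2 ^ d.sg0 / 2 ^ d.g0' 2) + 1 / 2 ^ Pq) := ⟨_, rfl⟩
  have hBq : ∀ ω, B ω → ∀ b : ℕ → ℝ, CLO.Bxr 2 (wid ⌊N.w0 * J⌋₊ d.g0')
      (d.P0 (d.zz (ptr F J ω))) 3 b →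
      |2 ^ d.sg0 * eval b (d.P0 (d.zz (ptr F J ω)) 3) - eval b (Q (z₂ (ptr F J ω)))| ≤ X := by
    intro ω hω b hb
    have h1 := hB3 ω hω b hb
    simp only [map_sub, map_mul, eval_C] at h1
    have e1 : 2 ^ d.sg0 * eval b (d.P0 (d.zz (ptr F J ω)) 3) - eval b (Q (z₂ (ptr F J ω))) =
        2 ^ d.sg0 * (eval b (d.P0 (d.zz (ptr F J ω)) 3) -
          1 / 2 ^ d.sg0 * eval b (Q (z₂ (ptr F J ω)))) := by
      field_simp
    rw [e1, abs_mul, abs_of_pos psg]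
    refine (mul_le_mul_of_nonneg_left h1 psg.le).trans ?_
    have h2 : 2 ^ d.sg0 * T ≤ 2 * (2 ^ d.sg0 / 2 ^ d.g0' 2) + 1 / 2 ^ Pq := by
      have h3 := mul_le_mul_of_nonneg_left hJg psg.le
      have e2 : (2 : ℝ) ^ d.sg0 * (1 / 2 ^ (d.sg0 + Pq)) = 1 / 2 ^ Pq := by
        rw [pow_add]
        field_simp
      have e3 : (2 : ℝ) ^ d.sg0 / 2 ^ d.g0' 2 = 2 ^ d.sg0 * (1 / 2 ^ d.g0' 2) := by ring
      rw [hT, mul_add, mul_add, e2, e3]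
      linarith
    rw [hX]
    calc 2 ^ d.sg0 * (Real.exp (e * J) * T) = Real.exp (e * J) * (2 ^ d.sg0 * T) := by ring
      _ ≤ _ := mul_le_mul_of_nonneg_left h2 (Real.exp_pos _).le
  -- the slopes
  obtain ⟨E, hE⟩ : ∃ E : ℝ, E = Real.exp ((N.sl + 2 * e) * J + 3) := ⟨_, rfl⟩
  have hXk : ∀ i < 3, 2 * X * 2 ^ wid ⌊N.w0 * J⌋₊ d.g0' i ≤
      2 * Real.exp (e * J) * (2 * (2 ^ d.sg0 * 2 ^ d.kap) + E) := by
    intro i hi
    have h1 : wid ⌊N.w0 * J⌋₊ d.g0' i ≤ d.g0' 2 + d.kap := by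
      interval_cases i
      · have a1 := d.win0 2 (by norm_num)
        have a2 := d.srt0 1 (by norm_num)
        have a3 : wid ⌊N.w0 * J⌋₊ d.g0' 0 = ⌊N.w0 * J⌋₊ := rfl
        have a4 : wid ⌊N.w0 * J⌋₊ d.g0' 2 = d.g0' 1 := rfl
        omega
      · have a2 := d.srt0 0 (by norm_num)
        have a3 : wid ⌊N.w0 * J⌋₊ d.g0' 1 = d.g0' 0 := rfl
        omega
      · have a2 := d.srt0 1 (by norm_num)
        have a3 : wid ⌊N.w0 * J⌋₊ d.g0' 2 = d.g0' 1 := rfl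
        omega
    have h2 : (2 : ℝ) ^ wid ⌊N.w0 * J⌋₊ d.g0' i ≤ 2 ^ d.g0' 2 * 2 ^ d.kap := by
      rw [← pow_add]
      exact pow_le_pow_right₀ (by norm_num) h1
    have h3 : (wid ⌊N.w0 * J⌋₊ d.g0' i : ℝ) ≤ (N.β 2 + N.sl + φ') * J := by
      have a0 : N.w0 * J ≤ (N.β 2 + N.sl) * J := mul_le_mul_of_nonneg_right hb hJ0
      interval_cases i
      · have a3 : wid ⌊N.w0 * J⌋₊ d.g0' 0 = ⌊N.w0 * J⌋₊ := rfl
        rw [a3]
        have a1 := Nat.floor_le (mul_nonneg hw0.le hJ0)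
        linarith
      · have a3 : wid ⌊N.w0 * J⌋₊ d.g0' 1 = d.g0' 0 := rfl
        rw [a3]
        have a1 := (abs_le.1 (d.num0 0 (by norm_num))).2
        have a2 := mul_le_mul_of_nonneg_right (hb' 0 (by norm_num)) hJ0
        linarith
      · have a3 : wid ⌊N.w0 * J⌋₊ d.g0' 2 = d.g0' 1 := rfl
        rw [a3]
        have a1 := (abs_le.1 (d.num0 1 (by norm_num))).2
        have a2 := mul_le_mul_of_nonneg_right (hb' 1 (by norm_num)) hJ0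
        linarith
    have h4 : (2 : ℝ) ^ wid ⌊N.w0 * J⌋₊ d.g0' i ≤ 2 ^ Pq * E := by
      obtain ⟨x, hx⟩ : ∃ x : ℕ, x = ⌈(N.sl + 2 * e) * J + 1⌉₊ := ⟨_, rfl⟩
      have x0 : 0 ≤ (N.sl + 2 * e) * J + 1 := by positivity
      have x1 : (N.sl + 2 * e) * J + 1 ≤ x := by
        rw [hx]
        exact Nat.le_ceil _
      have x2 : (x : ℝ) ≤ (N.sl + 2 * e) * J + 3 := by
        have := (Nat.ceil_lt_add_one x0).le
        rw [hx]
        linarith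
      have x3 : wid ⌊N.w0 * J⌋₊ d.g0' i ≤ Pq + x := by
        have : (wid ⌊N.w0 * J⌋₊ d.g0' i : ℝ) ≤ ((Pq + x : ℕ) : ℝ) := by
          push_cast
          rw [hβ2] at h3
          nlinarith
        exact_mod_cast this
      calc (2 : ℝ) ^ wid ⌊N.w0 * J⌋₊ d.g0' i ≤ 2 ^ (Pq + x) :=
            pow_le_pow_right₀ (by norm_num) x3
        _ = 2 ^ Pq * 2 ^ x := pow_add _ _ _
        _ ≤ 2 ^ Pq * E := by
            rw [hE]
            exact mul_le_mul_of_nonneg_left (two_le_exp x x2) pPq.le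
    have pe0 := Real.exp_pos (e * J)
    have h5 : (2 ^ d.sg0 / 2 ^ d.g0' 2) * (2 : ℝ) ^ wid ⌊N.w0 * J⌋₊ d.g0' i ≤
        2 ^ d.sg0 * 2 ^ d.kap := by
      rw [div_mul_eq_mul_div, div_le_iff₀ pg]
      calc (2 : ℝ) ^ d.sg0 * 2 ^ wid ⌊N.w0 * J⌋₊ d.g0' i ≤
            2 ^ d.sg0 * (2 ^ d.g0' 2 * 2 ^ d.kap) := mul_le_mul_of_nonneg_left h2 psg.le
        _ = _ := by ring
    have h6 : (1 / 2 ^ Pq) * (2 : ℝ) ^ wid ⌊N.w0 * J⌋₊ d.g0' i ≤ E := by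
      rw [one_div_mul_eq_div, div_le_iff₀ pPq]
      linarith
    calc 2 * X * 2 ^ wid ⌊N.w0 * J⌋₊ d.g0' i = 2 * Real.exp (e * J) *
          (2 * ((2 ^ d.sg0 / 2 ^ d.g0' 2) * 2 ^ wid ⌊N.w0 * J⌋₊ d.g0' i) +
            (1 / 2 ^ Pq) * 2 ^ wid ⌊N.w0 * J⌋₊ d.g0' i) := by
          rw [hX]
          ring
      _ ≤ _ := mul_le_mul_of_nonneg_left (by linarith) (by positivity)
  have hLe : 1 + d.L ≤ Real.exp (φ' * J) := by
    have h0 := d.L0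
    rw [← Real.log_le_iff_le_exp (by linarith)]
    exact d.L1
  have hexp5 : 49 ≤ Real.exp (φ / 2 * J) := by
    have := Real.add_one_le_exp (φ / 2 * J)
    linarith
  have hsgS : (2 : ℝ) ^ d.sg0 ≤ Real.exp ((N.sl + φ') * J) := by
    refine two_le_exp _ ?_
    have n0 := (abs_le.1 d.nums0).2
    have n1 := mul_le_mul_of_nonneg_right hs hJ0
    linarith
  have hM := slp_num (J := J) (φ := φ) he.le hsl pe he1 hexp5 d.L0 hLe psg.le hsgS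
    (by positivity : (0 : ℝ) ≤ 2 ^ d.kap) (two_le_exp d.kap d.kapφ) (Real.exp_pos (e * J)).le
    le_rfl (by rw [hE]; positivity : 0 ≤ E) (by rw [hE]) rfl
  have hLM : d.L ≤ Real.exp (φ * J) := by
    have h1 : Real.exp (φ' * J) ≤ Real.exp (φ * J) :=
      Real.exp_le_exp.2 (mul_le_mul_of_nonneg_right pφ hJ0)
    linarith
  refine ⟨B, hB1, hB2, ?_⟩
  refine ⟨
    { toDat := (d.sub hB1).mono pφ
      U := d.V0 × V₂ × V₃
      u := fun ξ => (d.zz ξ, z₂ ξ, z₃ ξ)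
      u' := fun ξ => (d.zz' ξ, z₂' ξ, z₃' ξ)
      Q := chQ d Q Q₄
      gU := fun i => if i = 2 then Pq else if i = 3 then P₄ else d.g0' i
      tri := chQ_tri d Q Q₄ hIs hQ₄
      aff := chQ_aff d Q Q₄ hIs hQ₄
      clsU := fun ω hω => by
        show (d.zz (ptr F J ω), z₂ (ptr F J ω), z₃ (ptr F J ω)) = _
        rw [d.lab0.cls ω (hB1 ω hω), q2 ω (hA' ω (hB1 ω hω)), hz₃ ω (hB1 ω hω)]
      posU := by
        intro ω hω i hi
        unfold ntc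
        by_cases h2 : i = 2
        · subst h2
          rw [if_pos rfl, chQ_three]
          exact q3 ω (hA' ω (hB1 ω hω))
        · rw [if_neg h2, if_neg (by omega), chQ_lt d Q Q₄ _ (by omega)]
          exact d.lab0.pos ω (hB1 ω hω) i (by omega)
      numU := by
        intro i hi
        by_cases h2 : i = 2
        · subst h2
          rw [if_pos rfl, hβ2, abs_le]
          constructor <;> nlinarith
        · rw [if_neg h2, if_neg (by omega), hβ i (by omega)]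
          exact (d.num0 i (by omega)).trans (mul_le_mul_of_nonneg_right pφ hJ0)
      slU := fun ω hω i hi l hl => by
        rw [chQ_lt d Q Q₄ _ (by omega)]
        exact (d.low.aff_le hN (hB1 ω hω) (by omega) l 0).trans hLM
      slV := fun ω hω => chQ_slp d Q Q₄ hIs hN (hB1 ω hω) rfl (hBq ω hω) hXk hM },
    fun _ => rfl, fun ω => chQ_four d Q Q₄ _, ?_⟩
  show (if (3 : ℕ) = 2 then Pq else if (3 : ℕ) = 3 then P₄ else d.g0' 3) = P₄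
  rw [if_neg (by norm_num), if_pos rfl]

/-- **The labels exist**, without the height. -/
theorem labV_of {S : PCl m} {c : ℕ → Fin m} {N : VNum} {K : ℕ} (hK : 1 ≤ K) {p : ℝ → ℝ}
    (hp : AflOf S c 2 p) {γ : ℝ} (hγ : 0 < γ) (hw0 : 0 < N.w0) (hw : N.w0 + γ ≤ 1)
    (hg : ∀ i < 2, N.g0 i + γ ≤ 1) (hsl : 0 ≤ N.sl) (hs : N.s0 ≤ N.sl)
    (hβ : ∀ i < 2, N.β i = N.g0 i) (hβ2 : N.β 2 = p N.w0) (hb : N.w0 ≤ N.β 2 + N.sl)
    (hb' : ∀ i < 2, N.g0 i ≤ N.β 2 + N.sl) (htm : TmWn S N.w0)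
    (hex : ∀ ρ : ℝ, 0 < ρ → ExvY S N.w0 (fun J F ω (i : Fin 2) => F.X J ω (c i))
      ((∑ l ∈ range 2, (1 - N.g0 l)) - ρ))
    (hD : LabD S c N.toNums K) : LabV S c N K := by
  intro φ hφ
  obtain ⟨φ', hφ', pφ, hch⟩ := chart_cls hK hp hγ hw0 hw hg hsl hs hβ hβ2 hb hb' htm hex hφ
  obtain ⟨κ, hκ, hD₁⟩ := hD φ' hφ'
  refine ⟨κ / 2, by positivity, (hD₁.and (hch κ hκ)).mono 0 ?_⟩
  rintro J _ F A ⟨⟨A', hA', hPA', ⟨d⟩⟩, H⟩
  obtain ⟨B, hB, hPB, v, -⟩ := H A' hA' hPA' d Unit (fun _ => ()) (fun _ => ()) (fun _ => 0) 0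
    (fun _ => by
      refine ⟨?_, ?_⟩
      · rw [totalDegree_zero]
        exact Nat.zero_le _
      · rw [vars_0]
        exact empty_subset _) (fun _ _ => rfl)
  exact ⟨B, fun ω hω => hA' ω (hB ω hω), by linarith, ⟨v⟩⟩

end Pool.PM81
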