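import Pool.Agent.H3.PM.Dat
import Pool.Agent.H81.PLN.PolS
import Pool.Agent.H93.PM.Afl

/-!
# Plan M: the affine chart of a label, I

`slp_box`: an affine function which is near a polynomial with a bounded gradient on the box of three
affine coordinates has bounded slopes.
-/

set_option autoImplicit false

namespace Pool.PM81

open Finset Real MvPolynomial
open Pool.Agent.H49.Ent Pool.Agent.H32.Dense Pool.STK Pool.KA Pool.KSAT Pool.K2S Pool.PB
  Pool.STAT Pool.GEN Pool.M3F Pool.KM7 Pool.S6C Pool.JPN Pool.PLN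
open Pool.PM93 (afp eval_afp IsAf isAf_afp)

/-- The derivatives of an affine polynomial. -/
theorem pd_afp (i : ℕ) (α b : ℕ → ℝ) {l : ℕ} (hl : l ≤ i) :
    eval b (pderiv l (afp i α)) = α (l + 1) := by
  classical
  unfold afp
  rw [map_add, map_sum, pderiv_C, zero_add, map_sum, Finset.sum_eq_single l]
  · simp
  · intro j _ hj
    rw [pderiv_C_mul, pderiv_X, Pi.single_eq_of_ne hj, mul_zero, map_zero]
  · intro h
    exact absurd (Finset.mem_range.2 (by omega)) h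

/-- A constant polynomial. -/
theorem eval_cst {P : PN} (h : P.vars ⊆ range 0) (b b' : ℕ → ℝ) : eval b P = eval b' P := by
  refine MvPolynomial.eval₂Hom_congr' rfl (fun i hi _ => ?_) rfl
  exact absurd (Finset.mem_range.1 (h hi)) (by omega)

/-- A move in the box. -/
theorem dir_box {Φ : ℕ → PN} (hΦ : TriN Φ) (hd : ∀ i < 3, (Φ i).totalDegree ≤ 1) {w : ℕ → ℕ}
    {L S X M : ℝ} (hL : 0 ≤ L) (hS : 0 ≤ S) {p : ℕ → ℝ} (hp : CLO.Bxr 1 w Φ 3 p)
    (hg : ∀ b : ℕ → ℝ, CLO.Bxr 4 w Φ 3 b → ∀ l < 3, |eval b (pderiv l (Φ 3))| ≤ L)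
    {q : ℕ → ℝ} (hq : ∀ b : ℕ → ℝ, CLO.Bxr 2 w Φ 3 b →
      |S * eval b (Φ 3) - eval b (afp 2 q)| ≤ X) {α β : ℕ → ℝ} (h1 : Φ 1 = afp 0 α)
    (h2 : Φ 2 = afp 1 β) (v0 v1 v2 : ℝ) (k0 : |v0| ≤ 1 / 2 ^ w 0)
    (k1 : |v1 - α 1 * v0| ≤ 1 / 2 ^ w 1) (k2 : |v2 - β 1 * v0 - β 2 * v1| ≤ 1 / 2 ^ w 2)
    (m0 : |v0| ≤ M) (m1 : |v1| ≤ M) (m2 : |v2| ≤ M) :
    |q 1 * v0 + q 2 * v1 + q 3 * v2| ≤ 2 * X + S * (3 * L * M) := by
  obtain ⟨b, hb⟩ : ∃ b : ℕ → ℝ, b = fun l => p l +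
      (if l = 0 then v0 else if l = 1 then v1 else if l = 2 then v2 else 0) := ⟨_, rfl⟩
  have b0 : b 0 = p 0 + v0 := by rw [hb]; simp
  have b1 : b 1 = p 1 + v1 := by rw [hb]; simp
  have b2 : b 2 = p 2 + v2 := by rw [hb]; simp
  have e1 : ∀ x : ℕ → ℝ, eval x (Φ 1) = α 0 + α 1 * x 0 := by
    intro x
    rw [h1, eval_afp]
    simp
  have e2 : ∀ x : ℕ → ℝ, eval x (Φ 2) = β 0 + (β 1 * x 0 + β 2 * x 1) := by
    intro x
    rw [h2, eval_afp]
    simp [Finset.sum_range_succ]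
  have e3 : ∀ x : ℕ → ℝ, eval x (afp 2 q) = q 0 + (q 1 * x 0 + q 2 * x 1 + q 3 * x 2) := by
    intro x
    rw [eval_afp]
    simp [Finset.sum_range_succ]
  have two : ∀ k : ℕ, (2 : ℝ) / 2 ^ k = 1 / 2 ^ k + 1 / 2 ^ k := fun k => by ring
  have hbb : CLO.Bxr 2 w Φ 3 b := by
    intro i hi
    have hpi := hp i hi
    rw [two]
    interval_cases i
    · rw [eval_cst (hΦ 0) b p, b0, show p 0 + v0 - eval p (Φ 0) = (p 0 - eval p (Φ 0)) + v0 by ring]
      exact (abs_add_le _ _).trans (add_le_add hpi k0)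
    · rw [e1] at hpi
      rw [e1, b0, b1, show p 1 + v1 - (α 0 + α 1 * (p 0 + v0)) =
        (p 1 - (α 0 + α 1 * p 0)) + (v1 - α 1 * v0) by ring]
      exact (abs_add_le _ _).trans (add_le_add hpi k1)
    · rw [e2] at hpi
      rw [e2, b0, b1, b2, show p 2 + v2 - (β 0 + (β 1 * (p 0 + v0) + β 2 * (p 1 + v1))) =
        (p 2 - (β 0 + (β 1 * p 0 + β 2 * p 1))) + (v2 - β 1 * v0 - β 2 * v1) by ring]
      exact (abs_add_le _ _).trans (add_le_add hpi k2)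
  have hpp : CLO.Bxr 2 w Φ 3 p := hp.mono (by norm_num) le_rfl
  have hbp : ∀ l < 3, |b l - p l| ≤ M := by
    intro l hl
    interval_cases l
    · rw [b0, add_sub_cancel_left]
      exact m0
    · rw [b1, add_sub_cancel_left]
      exact m1
    · rw [b2, add_sub_cancel_left]
      exact m2
  have hmv : |eval b (Φ 3) - eval p (Φ 3)| ≤ 3 * L * M := by
    refine pn_mv (hΦ 3) hbp hL fun t ht l hl => ?_
    refine hg _ ((bxr_tr3 hΦ (ρ := 2) fun i hi => ?_).mono (by norm_num) le_rfl) l hl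
    rw [aff_seg (hd i hi)]
    have g1 := hpp i hi
    have g2 := hbb i hi
    rw [show p i + t * (b i - p i) - ((1 - t) * eval p (Φ i) + t * eval b (Φ i)) =
      (1 - t) * (p i - eval p (Φ i)) + t * (b i - eval b (Φ i)) by ring]
    refine (abs_add_le _ _).trans ?_
    rw [abs_mul, abs_mul, abs_of_nonneg ht.1, abs_of_nonneg (sub_nonneg.2 ht.2)]
    have g3 := mul_le_mul_of_nonneg_left g1 (sub_nonneg.2 ht.2)
    have g4 := mul_le_mul_of_nonneg_left g2 ht.1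
    linarith
  have q1 := hq b hbb
  have q2 := hq p hpp
  have e4 : q 1 * v0 + q 2 * v1 + q 3 * v2 = (S * eval p (Φ 3) - eval p (afp 2 q)) -
      (S * eval b (Φ 3) - eval b (afp 2 q)) + S * (eval b (Φ 3) - eval p (Φ 3)) := by
    rw [e3, e3, b0, b1, b2]
    ring
  rw [e4]
  refine (abs_add_le _ _).trans ?_
  have g5 := abs_sub (S * eval p (Φ 3) - eval p (afp 2 q)) (S * eval b (Φ 3) - eval b (afp 2 q))
  have g6 : |S * (eval b (Φ 3) - eval p (Φ 3))| ≤ S * (3 * L * M) := by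
    rw [abs_mul, abs_of_nonneg hS]
    exact mul_le_mul_of_nonneg_left hmv hS
  linarith

/-- **The slopes of an affine function near a polynomial**, on a box in affine coordinates. -/
theorem slp_box {Φ : ℕ → PN} (hΦ : TriN Φ) (hd : ∀ i < 3, (Φ i).totalDegree ≤ 1) {w : ℕ → ℕ}
    {L S X Y : ℝ} (hL : 0 ≤ L) (hS : 0 ≤ S) {p : ℕ → ℝ} (hp : CLO.Bxr 1 w Φ 3 p)
    (hs : ∀ i < 3, ∀ l < i, |eval p (pderiv l (Φ i))| ≤ L)
    (hg : ∀ b : ℕ → ℝ, CLO.Bxr 4 w Φ 3 b → ∀ l < 3, |eval b (pderiv l (Φ 3))| ≤ L)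
    {q : ℕ → ℝ} (hq : ∀ b : ℕ → ℝ, CLO.Bxr 2 w Φ 3 b →
      |S * eval b (Φ 3) - eval b (afp 2 q)| ≤ X) (hY : ∀ i < 3, 2 * X * 2 ^ w i ≤ Y) :
    ∀ i < 3, |q (i + 1)| ≤ (1 + 2 * L) ^ 2 * (Y + 3 * S * L) := by
  obtain ⟨α, h1⟩ := IsAf.eq (i := 0) ⟨hd 1 (by norm_num), hΦ 1⟩
  obtain ⟨β, h2⟩ := IsAf.eq (i := 1) ⟨hd 2 (by norm_num), hΦ 2⟩
  have a1 : |α 1| ≤ L := by
    have := hs 1 (by norm_num) 0 (by norm_num)
    rwa [h1, pd_afp 0 α p le_rfl] at this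
  have c1 : |β 1| ≤ L := by
    have := hs 2 (by norm_num) 0 (by norm_num)
    rwa [h2, pd_afp 1 β p (by norm_num)] at this
  have c2 : |β 2| ≤ L := by
    have := hs 2 (by norm_num) 1 (by norm_num)
    rwa [h2, pd_afp 1 β p le_rfl] at this
  have hX : 0 ≤ X := (abs_nonneg _).trans (hq p (hp.mono (by norm_num) le_rfl))
  have hY0 : 0 ≤ Y := le_trans (by positivity) (hY 0 (by norm_num))
  have hSL : 0 ≤ S * L := mul_nonneg hS hL
  have key : ∀ (k : ℕ) (u0 u1 u2 B : ℝ), 2 * X * 2 ^ k ≤ Y →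
      |q 1 * (u0 * (1 / 2 ^ k)) + q 2 * (u1 * (1 / 2 ^ k)) + q 3 * (u2 * (1 / 2 ^ k))| ≤
        2 * X + S * (3 * L * (B * (1 / 2 ^ k))) →
      |q 1 * u0 + q 2 * u1 + q 3 * u2| ≤ Y + 3 * S * L * B := by
    intro k u0 u1 u2 B hk h
    have p2 : (0 : ℝ) < 2 ^ k := by positivity
    have e : q 1 * (u0 * (1 / 2 ^ k)) + q 2 * (u1 * (1 / 2 ^ k)) + q 3 * (u2 * (1 / 2 ^ k)) =
        (q 1 * u0 + q 2 * u1 + q 3 * u2) / 2 ^ k := by ring
    rw [e, abs_div, abs_of_pos p2, div_le_iff₀ p2] at h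
    refine h.trans ?_
    have e2 : (2 * X + S * (3 * L * (B * (1 / 2 ^ k)))) * 2 ^ k =
        2 * X * 2 ^ k + 3 * S * L * B := by field_simp
    rw [e2]
    linarith
  have D : ∀ (k : ℕ), (0 : ℝ) < 1 / 2 ^ k := fun k => by positivity
  have pe : ∀ (k : ℕ) (x B : ℝ), |x| ≤ B → |x * (1 / 2 ^ k)| ≤ B * (1 / 2 ^ k) := by
    intro k x B h
    rw [abs_mul, abs_of_pos (D k)]
    exact mul_le_mul_of_nonneg_right h (D k).le
  have z3 : |q 3| ≤ Y + 3 * S * L := by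
    have h := key (w 2) 0 0 1 1 (hY 2 (by norm_num)) (dir_box hΦ hd hL hS hp hg hq h1 h2 _ _ _
      (by rw [zero_mul, abs_zero]; exact (D _).le) (by simp)
      (by simp) (by rw [zero_mul, abs_zero, one_mul]; exact (D _).le)
      (by rw [zero_mul, abs_zero, one_mul]; exact (D _).le) (pe _ _ _ (by simp)))
    simpa using h
  have z2 : |q 2 + q 3 * β 2| ≤ Y + 3 * S * L * (1 + L) := by
    have h := key (w 1) 0 1 (β 2) (1 + L) (hY 1 (by norm_num)) (dir_box hΦ hd hL hS hp hg hq h1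
      h2 _ _ _ (by rw [zero_mul, abs_zero]; exact (D _).le) (by simp)
      (by
        rw [show β 2 * (1 / 2 ^ w 1) - β 1 * (0 * (1 / 2 ^ w 1)) - β 2 * (1 * (1 / 2 ^ w 1)) = 0
          by ring, abs_zero]
        exact (D _).le)
      (pe _ _ _ (by rw [abs_zero]; linarith)) (pe _ _ _ (by rw [abs_one]; linarith))
      (pe _ _ _ (by linarith)))
    simpa using h
  have z1 : |q 1 + q 2 * α 1 + q 3 * (β 1 + β 2 * α 1)| ≤ Y + 3 * S * L * (1 + L) ^ 2 := by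
    have hab : |β 1 + β 2 * α 1| ≤ L + L * L := by
      refine (abs_add_le _ _).trans (add_le_add c1 ?_)
      rw [abs_mul]
      exact mul_le_mul c2 a1 (abs_nonneg _) hL
    have h := key (w 0) 1 (α 1) (β 1 + β 2 * α 1) ((1 + L) ^ 2) (hY 0 (by norm_num)) (dir_box
      hΦ hd hL hS hp hg hq h1 h2 _ _ _ (by rw [one_mul, abs_of_pos (D _)])
      (by
        rw [show α 1 * (1 / 2 ^ w 0) - α 1 * (1 * (1 / 2 ^ w 0)) = 0 by ring, abs_zero]
        exact (D _).le)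
      (by
        rw [show (β 1 + β 2 * α 1) * (1 / 2 ^ w 0) - β 1 * (1 * (1 / 2 ^ w 0)) -
          β 2 * (α 1 * (1 / 2 ^ w 0)) = 0 by ring, abs_zero]
        exact (D _).le)
      (pe _ _ _ (by rw [abs_one]; nlinarith)) (pe _ _ _ (by nlinarith))
      (pe _ _ _ (by nlinarith)))
    simpa using h
  have Z0 : 0 ≤ Y + 3 * S * L := by nlinarith
  have y2 : |q 2| ≤ (1 + 2 * L) * (Y + 3 * S * L) := by
    have h3 : |q 3 * β 2| ≤ (Y + 3 * S * L) * L := by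
      rw [abs_mul]
      exact mul_le_mul z3 c2 (abs_nonneg _) Z0
    have h4 := abs_sub (q 2 + q 3 * β 2) (q 3 * β 2)
    rw [add_sub_cancel_right] at h4
    nlinarith [mul_nonneg hY0 hL, mul_nonneg hSL hL]
  have y1 : |q 1| ≤ (1 + 2 * L) ^ 2 * (Y + 3 * S * L) := by
    have h3 : |q 2 * α 1| ≤ (1 + 2 * L) * (Y + 3 * S * L) * L := by
      rw [abs_mul]
      exact mul_le_mul y2 a1 (abs_nonneg _) (by positivity)
    have h5 : |q 3 * (β 1 + β 2 * α 1)| ≤ (Y + 3 * S * L) * (L + L * L) := by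
      rw [abs_mul]
      refine mul_le_mul z3 ?_ (abs_nonneg _) Z0
      refine (abs_add_le _ _).trans (add_le_add c1 ?_)
      rw [abs_mul]
      exact mul_le_mul c2 a1 (abs_nonneg _) hL
    have h6 := abs_sub (q 1 + q 2 * α 1 + q 3 * (β 1 + β 2 * α 1))
      (q 2 * α 1 + q 3 * (β 1 + β 2 * α 1))
    have h7 := abs_add_le (q 2 * α 1) (q 3 * (β 1 + β 2 * α 1))
    rw [show q 1 + q 2 * α 1 + q 3 * (β 1 + β 2 * α 1) -
      (q 2 * α 1 + q 3 * (β 1 + β 2 * α 1)) = q 1 by ring] at h6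
    have h8 : |q 1| ≤ (Y + 3 * S * L * (1 + L) ^ 2) + ((1 + 2 * L) * (Y + 3 * S * L) * L +
        (Y + 3 * S * L) * (L + L * L)) := by linarith
    refine h8.trans ?_
    have h9 : 0 ≤ Y * L := mul_nonneg hY0 hL
    have h10 : 0 ≤ Y * L * L := mul_nonneg h9 hL
    have h11 : (Y + 3 * S * L * (1 + L) ^ 2) + ((1 + 2 * L) * (Y + 3 * S * L) * L +
        (Y + 3 * S * L) * (L + L * L)) + (2 * (Y * L) + Y * L * L) =
        (1 + 2 * L) ^ 2 * (Y + 3 * S * L) := by ring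
    linarith
  intro i hi
  have hL2 : 1 ≤ 1 + 2 * L := by linarith
  interval_cases i
  · exact y1
  · refine y2.trans ?_
    have h0 : 0 ≤ (1 + 2 * L) * (Y + 3 * S * L) := mul_nonneg (by linarith) Z0
    have h3 := mul_le_mul_of_nonneg_right hL2 h0
    rw [one_mul] at h3
    refine h3.trans (le_of_eq ?_)
    ring
  · refine z3.trans ?_
    exact le_mul_of_one_le_left Z0 (one_le_pow₀ hL2)

end Pool.PM81
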